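import Mathlib
import Pool.Agent.H25.Icube2

namespace Pool.Agent.Results.MP_710d87_nt.Extends

open Finset Matrix Pool.Agent.H25.Icube2

/-- `v 0, …, v (k-1)` are pairwise orthogonal vectors of `ℤ^n`, all of squared length `l > 0`. -/
def IsIcube {k n : ℕ} (v : Fin k → Fin n → ℤ) (l : ℤ) : Prop :=
  0 < l ∧ ∀ i j, ∑ t, v i t * v j t = if i = j then l else 0

def oct (v : Fin 8 → ℤ) : Matrix (Fin 8) (Fin 8) ℤ :=
  !![v 0, v 1, v 2, v 3, v 4, v 5, v 6, v 7;
     -v 1, v 0, -v 3, v 2, -v 5, v 4, v 7, -v 6;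
     -v 2, v 3, v 0, -v 1, -v 6, -v 7, v 4, v 5;
     -v 3, -v 2, v 1, v 0, -v 7, v 6, -v 5, v 4;
     -v 4, v 5, v 6, v 7, v 0, -v 1, -v 2, -v 3;
     -v 5, -v 4, v 7, -v 6, v 1, v 0, v 3, -v 2;
     -v 6, -v 7, -v 4, v 5, v 2, -v 3, v 0, v 1;
     -v 7, v 6, -v 5, -v 4, v 3, v 2, -v 1, v 0]

lemma oct_mul (v : Fin 8 → ℤ) (i j : Fin 8) :
    ∑ t, oct v i t * oct v j t = if i = j then ∑ t, v t * v t else 0 := by
  fin_cases i <;> fin_cases j <;> simp [oct, Fin.sum_univ_eight] <;> ring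

lemma oct_zero (v : Fin 8 → ℤ) : oct v 0 = v := by
  ext i; fin_cases i <;> rfl

lemma integ_span {n : ℕ} (S : Set (V n)) (h : ∀ a ∈ S, ∀ b ∈ S, a ⬝ᵥ b ∈ Zs) :
    Integ (Submodule.span ℤ S) := by
  intro a ha b hb
  induction ha using Submodule.span_induction with
  | mem a ha =>
    induction hb using Submodule.span_induction with
    | mem b hb => exact h a ha b hb
    | zero => simp
    | add x y _ _ h1 h2 => rw [dotProduct_add]; exact add_mem h1 h2
    | smul c x _ h1 => rw [dotProduct_smul]; exact zsmul_mem h1 c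
  | zero => simp
  | add x y _ _ h1 h2 => rw [add_dotProduct]; exact add_mem h1 h2
  | smul c x _ h1 => rw [smul_dotProduct]; exact zsmul_mem h1 c

lemma unit {c : Fin 8 → ℤ} (h : ∑ t, c t * c t = 1) :
    ∃ j, (c j = 1 ∨ c j = -1) ∧ ∀ t, t ≠ j → c t = 0 := by
  obtain ⟨j, hj⟩ : ∃ j, c j ≠ 0 := by
    by_contra hc
    push Not at hc
    simp [hc] at h
  rw [← add_sum_erase _ _ (mem_univ j)] at h
  have a := sum_nonneg (s := univ.erase j) (fun t _ => mul_self_nonneg (c t))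
  have b : 0 < c j * c j := mul_self_pos.2 hj
  refine ⟨j, mul_self_eq_one_iff.1 (by omega), fun t ht => ?_⟩
  exact mul_self_eq_zero.1 ((sum_eq_zero_iff_of_nonneg (fun t _ => mul_self_nonneg (c t))).1 (by omega) t
    (mem_erase.2 ⟨ht, mem_univ t⟩))

lemma comb {k : ℕ} (v : Fin (k + 2) → Fin 8 → ℤ) (l : ℤ) (h : IsIcube v l) :
    ∃ (W : Fin 8 → Fin 8 → ℤ) (c : Fin (k + 2) → Fin 8 → ℤ), IsIcube W l ∧ IsIcube c 1 ∧
      ∀ i t, v i t = ∑ j, c i j * W j t := by
  obtain ⟨l0, hv⟩ := h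
  have l1 : (l : ℚ) ≠ 0 := by exact_mod_cast l0.ne'
  let A : Matrix (Fin 8) (Fin 8) ℚ := fun i j => oct (v 0) i j
  have hA : A * Aᵀ = (l : ℚ) • 1 := by
    ext i j
    have := oct_mul (v 0) i j
    rw [hv, if_pos rfl] at this
    have e : ∑ t, (oct (v 0) i t : ℚ) * oct (v 0) j t = if i = j then (l : ℚ) else 0 := by
      exact_mod_cast this
    simpa [mul_apply, one_apply, A] using e
  have hA' : Aᵀ * A = (l : ℚ) • 1 := by
    have e : A * ((1 / l : ℚ) • Aᵀ) = 1 := by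
      rw [Matrix.mul_smul, hA, smul_smul, one_div_mul_cancel l1, one_smul]
    rw [← mul_eq_one_comm.1 e, Matrix.smul_mul, smul_smul, mul_one_div_cancel l1, one_smul]
  have dA : ∀ x y : V 8, (A *ᵥ x) ⬝ᵥ (A *ᵥ y) = l * x ⬝ᵥ y := fun x y => by
    rw [dotProduct_mulVec, ← mulVec_transpose, mulVec_mulVec, hA', smul_mulVec, one_mulVec,
      smul_dotProduct, smul_eq_mul]
  let q : Fin (k + 2) → V 8 := fun i t => v i t
  have hq : ∀ i j, q i ⬝ᵥ q j = if i = j then (l : ℚ) else 0 := fun i j => by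
    have := hv i j
    simp only [q, dotProduct]
    exact_mod_cast this
  let u : Fin (k + 2) → V 8 := fun i => (1 / l : ℚ) • A *ᵥ q i
  let a : Fin 8 → V 8 := fun j => A *ᵥ Pi.single j 1
  have uu : ∀ i j, u i ⬝ᵥ u j = if i = j then 1 else 0 := fun i j => by
    simp only [u, smul_dotProduct, dotProduct_smul, dA, hq, smul_eq_mul]
    split_ifs
    · field_simp
    · simp
  have ua : ∀ i j, u i ⬝ᵥ a j = v i j := fun i j => by
    simp only [u, a, smul_dotProduct, dA, smul_eq_mul, dotProduct_single, q]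
    field_simp
  have mu : ∀ i, u i ∈ Submodule.span ℤ (Set.range u ∪ Set.range a) :=
    fun i => Submodule.subset_span (Or.inl ⟨i, rfl⟩)
  obtain ⟨U, hU, hL⟩ := good8 (Submodule.span ℤ (Set.range u ∪ Set.range a))
    (Submodule.fg_span ((Set.finite_range _).union (Set.finite_range _)))
    (integ_span _ (by
      rintro _ (⟨i, rfl⟩ | ⟨i, rfl⟩) _ (⟨j, rfl⟩ | ⟨j, rfl⟩)
      · rw [uu]; split_ifs; exacts [one_mem _, zero_mem _]
      · rw [ua]; exact intZ _
      · rw [dotProduct_comm, ua]; exact intZ _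
      · simp only [a, dA]
        refine mul_mem (intZ _) (dotZ (fun t => ?_) (fun t => ?_)) <;>
        · rw [Pi.single_apply]; split_ifs; exacts [one_mem _, zero_mem _]))
    (u 0) (u 1) (mu 0) (mu 1) (by simp [uu]) (by simp [uu]) (by simp [uu])
  choose c hc using fun i => hL _ (mu i)
  choose W hW using fun t => hL (a t) (Submodule.subset_span (Or.inr ⟨t, rfl⟩))
  simp only [eq_intCast] at hc hW
  have hW' : ∀ j t, (W t j : ℚ) = (U * A) j t := fun j t => by
    rw [hW]; simp only [a, mulVec_mulVec]; simp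
  refine ⟨fun j t => W t j, c, ⟨l0, fun i j => ?_⟩, ⟨one_pos, fun i j => ?_⟩, fun i t => ?_⟩
  · have e : (U * A) * (U * A)ᵀ = (l : ℚ) • 1 := by
      rw [transpose_mul, Matrix.mul_assoc, ← Matrix.mul_assoc A, hA, Matrix.smul_mul, Matrix.one_mul,
        Matrix.mul_smul, hU]
    have e2 : ∑ t, (W t i : ℚ) * W t j = if i = j then (l : ℚ) else 0 := by
      have := congrFun (congrFun e i) j
      rw [mul_apply] at this
      simpa [hW', one_apply] using this
    exact_mod_cast e2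
  · have e2 : ∑ t, (c i t : ℚ) * c j t = if i = j then (1 : ℚ) else 0 := by
      simp only [hc]
      rw [← uu, ← iso hU]; rfl
    exact_mod_cast e2
  · have e2 : (v i t : ℚ) = ∑ j, (c i j : ℚ) * W t j := by
      simp only [hc, hW]
      rw [← ua, ← iso hU]; rfl
    exact_mod_cast e2

lemma ext0 {k : ℕ} (v : Fin (k + 1) → Fin 8 → ℤ) (l : ℤ) (h : IsIcube v l) :
    ∃ w : Fin 8 → Fin 8 → ℤ, IsIcube w l ∧
      ∃ f : Fin (k + 1) → Fin 8, Function.Injective f ∧ ∀ i, w (f i) = v i := by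
  rcases k with _ | k
  · refine ⟨oct (v 0), ⟨h.1, fun i j => by rw [oct_mul, h.2, if_pos rfl]⟩, fun _ => 0,
      fun a b _ => Subsingleton.elim (α := Fin 1) a b, fun i => ?_⟩
    rw [oct_zero, Subsingleton.elim (α := Fin 1) i 0]
  obtain ⟨W, c, hW, hc, e⟩ := comb v l h
  choose f f1 f2 using fun i => unit (c := c i) (by rw [hc.2, if_pos rfl])
  have one : ∀ i (g : Fin 8 → ℤ), ∑ j, c i j * g j = c i (f i) * g (f i) := fun i g =>
    sum_eq_single _ (fun t _ ht => by rw [f2 i t ht, zero_mul]) (by simp)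
  have inj : Function.Injective f := fun i j hij => by
    by_contra hne
    have a := hc.2 i j
    rw [if_neg hne, one, hij] at a
    have b := f1 i
    have d := f1 j
    rw [hij] at b
    rcases b with b | b <;> rcases d with d | d <;> rw [b, d] at a <;> omega
  let s : Fin 8 → ℤ := Function.extend f (fun i => c i (f i)) (fun _ => 1)
  have s1 : ∀ j, s j * s j = 1 := fun j => by
    by_cases hj : ∃ i, f i = j
    · obtain ⟨i, rfl⟩ := hj
      simp only [s, inj.extend_apply]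
      rcases f1 i with b | b <;> rw [b] <;> rfl
    · simp only [s, Function.extend_apply' _ _ _ hj, mul_one]
  refine ⟨fun j t => s j * W j t, ⟨h.1, fun i j => ?_⟩, f, inj, fun i => funext fun t => ?_⟩
  · rw [sum_congr rfl (g := fun t => s i * s j * (W i t * W j t)) (fun t _ => by ring), ← mul_sum, hW.2]
    split_ifs with hij
    · rw [hij, s1, one_mul]
    · rw [mul_zero]
  · rw [e, one i (fun j => W j t)]
    simp only [s, inj.extend_apply]

theorem result (k : ℕ) (h1 : 1 ≤ k) (h8 : k ≤ 8) (v : Fin k → Fin 8 → ℤ) (l : ℤ) (h : IsIcube v l) :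
    ∃ w : Fin 8 → Fin 8 → ℤ, IsIcube w l ∧ ∀ i : Fin k, w (Fin.castLE h8 i) = v i := by
  obtain ⟨k, rfl⟩ : ∃ j, k = j + 1 := ⟨k - 1, by omega⟩
  obtain ⟨w, hw, f, hf, e⟩ := ext0 v l h
  obtain ⟨σ, hσ⟩ := Equiv.Perm.exists_extending_pair (f := Fin.castLE h8) (g := f)
    (Fin.castLE_injective h8) hf
  refine ⟨fun j => w (σ j), ⟨hw.1, fun i j => ?_⟩, fun i => by simp only [hσ, e]⟩
  rw [hw.2]
  simp only [EmbeddingLike.apply_eq_iff_eq]

end Pool.Agent.Results.MP_710d87_nt.Extends
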